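import Pool.Agent.Helper69.QG.St2

/-!
# Project QD part C, module AFF: the action of `SL(2,ℤ)`
-/

open Complex Set Metric
open scoped ComplexConjugate

namespace Pool.Agent.Helper33.QG

open Pool.Agent.Helper69.QG

/-- multiplication by `I` -/
noncomputable def hI : DD ≃ₜ DD where
  toFun z := ⟨I * (z : ℂ), by
    have h := z.2
    rw [mem_ball_zero_iff] at h ⊢
    rwa [norm_mul, Complex.norm_I, one_mul]⟩
  invFun z := ⟨-I * (z : ℂ), by
    have h := z.2
    rw [mem_ball_zero_iff] at h ⊢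
    rwa [norm_mul, norm_neg, Complex.norm_I, one_mul]⟩
  left_inv z := Subtype.ext (by
    show -I * (I * (z : ℂ)) = z
    rw [← mul_assoc, neg_mul, Complex.I_mul_I, neg_neg, one_mul])
  right_inv z := Subtype.ext (by
    show I * (-I * (z : ℂ)) = z
    rw [← mul_assoc, mul_neg, Complex.I_mul_I, neg_neg, one_mul])
  continuous_toFun := by
    refine Continuous.subtype_mk ?_ _
    exact continuous_const.mul continuous_subtype_val
  continuous_invFun := by
    refine Continuous.subtype_mk ?_ _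
    exact continuous_const.mul continuous_subtype_val

theorem hI_coe (z : DD) : ((hI z : DD) : ℂ) = I * (z : ℂ) := rfl

/-- exchange of the coordinates -/
def sw : Fin 4 → Fin 4
  | 0 => 2
  | 1 => 3
  | 2 => 0
  | 3 => 1

theorem act_coe (s : Fin 4) (z : DD) : ((act (gen s) z : DD) : ℂ) = R s z := by
  rw [act_gen]
  rfl

theorem gen_inv (s : Fin 4) : (gen s)⁻¹ = gen s := cs.inv_simple s

theorem hI_gen (s : Fin 4) (z : DD) :
    hI (act (gen s) z) = act (gen 0 * gen (sw s) * gen 0) (hI z) := by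
  apply Subtype.ext
  rw [hI_coe, act_coe, map_mul, map_mul, Equiv.Perm.mul_apply, Equiv.Perm.mul_apply, act_coe, act_coe, act_coe,
    hI_coe]
  generalize (z : ℂ) = y
  have h0 : ∀ u : ℂ, R 0 u = -conj u := fun _ => rfl
  have h1 : ∀ u : ℂ, R 1 u = (C0 * conj u - 1) / (conj u - C0) := fun _ => rfl
  have h2 : ∀ u : ℂ, R 2 u = conj u := fun _ => rfl
  have h3 : ∀ u : ℂ, R 3 u = (I * C0 * conj u - 1) / (conj u + I * C0) := fun _ => rfl
  have hm : ∀ a b c : ℂ, c ≠ 0 → a / b = (c * a) / (c * b) := fun a b c hc => (mul_div_mul_left a b hc).symm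
  fin_cases s
  · show I * R 0 y = R 0 (R 2 (R 0 (I * y)))
    rw [h0, h0, h2, h0]
    simp
  · show I * R 1 y = R 0 (R 3 (R 0 (I * y)))
    rw [h1, h0, h3, h0, map_div₀]
    simp only [map_sub, map_add, map_mul, map_neg, Complex.conj_conj, Complex.conj_I, Complex.conj_ofReal,
      map_one]
    have hII := Complex.I_mul_I
    rw [← mul_div_assoc, ← neg_div, hm (I * ((C0 : ℂ) * conj y - 1)) _ I Complex.I_ne_zero]
    congr 1
    · linear_combination (-1 : ℂ) * hII
    · ring
  · show I * R 2 y = R 0 (R 0 (R 0 (I * y)))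
    rw [h2, h0, h0, h0]
    simp
  · show I * R 3 y = R 0 (R 1 (R 0 (I * y)))
    rw [h3, h0, h1, h0, map_div₀]
    simp only [map_sub, map_add, map_mul, map_neg, Complex.conj_conj, Complex.conj_I, Complex.conj_ofReal,
      map_one]
    have hII := Complex.I_mul_I
    rw [← mul_div_assoc, ← neg_div, hm (I * (I * (C0 : ℂ) * conj y - 1)) _ I Complex.I_ne_zero]
    congr 1
    · linear_combination (I * (C0 : ℂ) * conj y - 1) * hII
    · linear_combination (C0 : ℂ) * hII

/-- the automorphism of `W` -/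
theorem exists_aut (aut : St_AUT) : ∃ ψ : W ≃* W, ∀ s, ψ (gen s) = gen 0 * gen (sw s) * gen 0 := by
  obtain ⟨-, θ, t0, t1, t2, t3⟩ := aut
  refine ⟨θ.trans (MulAut.conj (gen 0)), fun s => ?_⟩
  show gen 0 * θ (gen s) * (gen 0)⁻¹ = _
  rw [gen_inv]
  fin_cases s
  · show gen 0 * θ (gen 0) * gen 0 = gen 0 * gen 2 * gen 0
    rw [t0]
  · show gen 0 * θ (gen 1) * gen 0 = gen 0 * gen 3 * gen 0
    rw [t1]
  · show gen 0 * θ (gen 2) * gen 0 = gen 0 * gen 0 * gen 0
    rw [t2]
  · show gen 0 * θ (gen 3) * gen 0 = gen 0 * gen 1 * gen 0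
    rw [t3]

theorem hI_act {ψ : W ≃* W} (hψ : ∀ s, ψ (gen s) = gen 0 * gen (sw s) * gen 0) (w : W) :
    ∀ z : DD, hI (act w z) = act (ψ w) (hI z) := by
  refine cs.simple_induction (p := fun w => ∀ z : DD, hI (act w z) = act (ψ w) (hI z)) w ?_ ?_ ?_
  · intro s z
    have h1 := hI_gen s z
    rw [← hψ] at h1
    exact h1
  · intro z
    rw [map_one, map_one, map_one]
    rfl
  · intro w w' h h' z
    rw [map_mul, map_mul, map_mul, Equiv.Perm.mul_apply, Equiv.Perm.mul_apply, h, h']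

theorem flat_gen3 (s : Fin 4) (u : ℂ) : flat (gen 0 * gen (sw s) * gen 0) (I * u) = I * flat (gen s) u := by
  rw [flat.map_mul, flat.map_mul, Equiv.Perm.mul_apply, Equiv.Perm.mul_apply, flat_gen, flat_gen, flat_gen, flat_gen]
  have hII := Complex.I_mul_I
  have c2 : conj (2 : ℂ) = 2 := Complex.conj_ofNat 2
  fin_cases s
  · show fr 0 (fr 2 (fr 0 (I * u))) = I * fr 0 u
    simp [fr]
  · show fr 0 (fr 3 (fr 0 (I * u))) = I * fr 1 u
    simp only [fr, map_add, map_mul, map_neg, Complex.conj_conj, Complex.conj_I, c2]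
    ring
  · show fr 0 (fr 0 (fr 0 (I * u))) = I * fr 2 u
    simp [fr]
  · show fr 0 (fr 1 (fr 0 (I * u))) = I * fr 3 u
    simp only [fr, map_sub, map_mul, map_neg, Complex.conj_conj, Complex.conj_I, c2]
    linear_combination (-2 : ℂ) * hII

theorem flat_act {ψ : W ≃* W} (hψ : ∀ s, ψ (gen s) = gen 0 * gen (sw s) * gen 0) (w : W) :
    ∀ u : ℂ, flat (ψ w) (I * u) = I * flat w u := by
  refine cs.simple_induction (p := fun w => ∀ u : ℂ, flat (ψ w) (I * u) = I * flat w u) w ?_ ?_ ?_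
  · intro s u
    have h1 := flat_gen3 s u
    rw [← hψ] at h1
    exact h1
  · intro u
    rw [map_one, map_one]
    rfl
  · intro w w' h h' u
    rw [ψ.map_mul, flat.map_mul, flat.map_mul, Equiv.Perm.mul_apply, Equiv.Perm.mul_apply, h', h]

theorem lp_aut {ψ : W ≃* W} (hψ : ∀ s, ψ (gen s) = gen 0 * gen (sw s) * gen 0) (w : W) :
    cs.lengthParity (ψ w) = cs.lengthParity w := by
  refine cs.simple_induction (p := fun w => cs.lengthParity (ψ w) = cs.lengthParity w) w ?_ ?_ ?_
  · intro s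
    have h1 := hψ s
    have h2 : ψ (cs.simple s) = gen 0 * gen (sw s) * gen 0 := h1
    rw [h2, map_mul, map_mul, mul_right_comm, ← map_mul]
    have h3 : gen 0 * gen 0 = 1 := cs.simple_mul_simple_self 0
    rw [h3, map_one, one_mul]
    show cs.lengthParity (cs.simple (sw s)) = _
    rw [cs.lengthParity_simple, cs.lengthParity_simple]
  · rw [map_one]
  · intro w w' h h'
    rw [map_mul, map_mul, map_mul, h, h']

theorem Ev_aut {ψ : W ≃* W} (hψ : ∀ s, ψ (gen s) = gen 0 * gen (sw s) * gen 0) (w : W) :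
    ψ w ∈ Ev ↔ w ∈ Ev := by
  unfold Ev
  rw [MonoidHom.mem_ker, MonoidHom.mem_ker, lp_aut hψ]

/-- the automorphism of the even subgroup -/
theorem exists_evaut {ψ : W ≃* W} (hψ : ∀ s, ψ (gen s) = gen 0 * gen (sw s) * gen 0) :
    ∃ φ : Ev ≃* Ev, ∀ w : Ev, ((φ w : Ev) : W) = ψ (w : W) := by
  refine ⟨{ toFun := fun w => ⟨ψ w, (Ev_aut hψ _).2 w.2⟩
            invFun := fun w => ⟨ψ.symm w, by
              rw [← Ev_aut hψ, ψ.apply_symm_apply]
              exact w.2⟩
            left_inv := fun w => Subtype.ext (ψ.symm_apply_apply _)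
            right_inv := fun w => Subtype.ext (ψ.apply_symm_apply _)
            map_mul' := fun w w' => Subtype.ext (map_mul ψ _ _) }, fun w => rfl⟩

/-- the folding map and `hI` -/
theorem psi_hI (pbd : St_PBD) (cvr : St_CVR) {ψ : W ≃* W} (hψ : ∀ s, ψ (gen s) = gen 0 * gen (sw s) * gen 0)
    {Psi : DD → ℂ} (hP : IsPsi Psi) (z : DD) : Psi (hI z) = I * Psi z := by
  obtain ⟨w, hw⟩ := cvr z
  obtain ⟨p, hp⟩ : ∃ p : DD, p = act w z := ⟨_, rfl⟩
  rw [← hp] at hw
  have hz : z = act w⁻¹ p := by rw [hp, ← Equiv.Perm.mul_apply, ← map_mul, inv_mul_cancel, map_one]; rfl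
  -- the value at `p`
  have key : Psi (hI p) = I * Psi p := by
    have hq : act (gen 0) (hI p) ∈ Pc := by
      obtain ⟨b1, b2, b3, b4⟩ := (pbd.1 p).1 hw
      rw [pbd.1]
      have e1 : ((act (gen 0) (hI p) : DD) : ℂ) = -conj (I * (p : ℂ)) := act_coe 0 _
      rw [e1]
      have e2 : (-conj (I * (p : ℂ))).re = (p : ℂ).im := by simp
      have e3 : (-conj (I * (p : ℂ))).im = (p : ℂ).re := by simp
      have e4 : ‖-conj (I * (p : ℂ))‖ = ‖(p : ℂ)‖ := by
        rw [norm_neg, RCLike.norm_conj, norm_mul, Complex.norm_I, one_mul]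
      rw [e2, e3, e4]
      exact ⟨b2, b1, b4, b3⟩
    have h1 : Psi (act (gen 0) (hI p)) = fr 0 (Psi (hI p)) := by rw [hP.eqv, flat_gen]
    have h2 : Psi (act (gen 0) (hI p)) = -conj (I * psi p) := by
      rw [hP.tile _ hq]
      have e1 : ((act (gen 0) (hI p) : DD) : ℂ) = -conj (I * (p : ℂ)) := act_coe 0 _
      rw [e1]
      unfold psi
      have e4 : ‖-conj (I * (p : ℂ))‖ = ‖(p : ℂ)‖ := by
        rw [norm_neg, RCLike.norm_conj, norm_mul, Complex.norm_I, one_mul]
      rw [e4, map_mul, map_mul, map_mul, Complex.conj_ofReal]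
      ring
    rw [h1] at h2
    have h3 := congrArg (fr 0) h2
    rw [fr_fr] at h3
    rw [h3, hP.tile p hw]
    show -conj (-conj (I * psi p)) = _
    rw [map_neg, Complex.conj_conj, neg_neg]
  rw [hz, hI_act hψ, hP.eqv, hP.eqv, key, flat_act hψ]

/-- the property of an element of `SL(2,ℤ)` -/
def Pr (γ : Matrix.SpecialLinearGroup (Fin 2) ℤ) : Prop :=
  ∃ (h : DD ≃ₜ DD) (φ : Ev ≃* Ev) (v : ℂ),
    (∀ (w : Ev) (z : DD), h (act (w : W) z) = act ((φ w : Ev) : W) (h z)) ∧
    ∀ Psi, IsPsi Psi → ∀ z, Psi (h z) = slin γ (Psi z) + v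

theorem slin_one (u : ℂ) : slin 1 u = u := by
  apply Complex.ext <;> simp [slin]

theorem slin_mul (γ δ : Matrix.SpecialLinearGroup (Fin 2) ℤ) (u : ℂ) :
    slin (γ * δ) u = slin γ (slin δ u) := by
  apply Complex.ext <;>
    simp only [slin, Matrix.SpecialLinearGroup.coe_mul, Matrix.mul_apply, Fin.sum_univ_two] <;> push_cast <;> ring

theorem slin_add (γ : Matrix.SpecialLinearGroup (Fin 2) ℤ) (u v : ℂ) :
    slin γ (u + v) = slin γ u + slin γ v := by
  apply Complex.ext <;> simp only [slin, Complex.add_re, Complex.add_im] <;> ring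

theorem cAFF (pbd : St_PBD) (pch : St_PCH) (evl : St_EVL) (cvr : St_CVR) (aut : St_AUT) (cta : St_CTA)
    (shh : St_SHH) : St_AFF := by
  intro γ
  show Pr γ
  have hmem : γ ∈ Subgroup.closure {ModularGroup.S, ModularGroup.T} := by
    rw [SpecialLinearGroup.SL2Z_generators]
    trivial
  induction hmem using Subgroup.closure_induction with
  | mem x hx =>
    rcases hx with rfl | hx
    · obtain ⟨ψ, hψ⟩ := exists_aut aut
      obtain ⟨φ, hφ⟩ := exists_evaut hψ
      refine ⟨hI, φ, 0, fun w z => ?_, fun Psi hP z => ?_⟩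
      · rw [hφ, hI_act hψ]
      · rw [psi_hI pbd cvr hψ hP, add_zero]
        apply Complex.ext <;> simp [slin, ModularGroup.S]
    · rw [Set.mem_singleton_iff] at hx
      subst hx
      obtain ⟨h, φ, h1, h2⟩ := shh
      refine ⟨h, φ, -1, h1, fun Psi hP z => ?_⟩
      rw [h2 Psi hP z]
      apply Complex.ext
      · simp [slin, shf, ModularGroup.T]
        ring
      · simp [slin, shf, ModularGroup.T]
  | one =>
    refine ⟨Homeomorph.refl _, MulEquiv.refl _, 0, fun w z => rfl, fun Psi hP z => ?_⟩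
    rw [slin_one, add_zero]
    rfl
  | mul x y _ _ hx hy =>
    obtain ⟨h, φ, v, h1, h2⟩ := hx
    obtain ⟨h', φ', v', h1', h2'⟩ := hy
    refine ⟨h'.trans h, φ'.trans φ, slin x v' + v, fun w z => ?_, fun Psi hP z => ?_⟩
    · show h (h' _) = act ((φ (φ' w) : Ev) : W) (h (h' z))
      rw [h1', h1]
    · show Psi (h (h' z)) = _
      rw [h2 Psi hP, h2' Psi hP, slin_mul, slin_add]
      ring
  | inv x _ hx =>
    obtain ⟨h, φ, v, h1, h2⟩ := hx
    refine ⟨h.symm, φ.symm, -slin x⁻¹ v, fun w z => ?_, fun Psi hP z => ?_⟩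
    · rw [h.symm_apply_eq, h1, φ.apply_symm_apply, h.apply_symm_apply]
    · have h3 := h2 Psi hP (h.symm z)
      rw [h.apply_symm_apply] at h3
      rw [h3, slin_add, ← slin_mul, inv_mul_cancel, slin_one]
      ring

end Pool.Agent.Helper33.QG
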