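import Pool.Agent.Helper69.QG.St4

/-! # Project QD, part C: the surface group is Fuchsian -/

open Complex Set Metric
open scoped ComplexConjugate

namespace Pool.Agent.Helper33.QG

open Pool.Agent.Helper69.QG
open Pool.Agent.Helper35.PM

/-- the centre of the disc -/
def zc : DD := ⟨0, mem_ball_self one_pos⟩

theorem zc_mem (pbd : St_PBD) : zc ∈ Pc := by
  rw [pbd.1]
  simp [zc]

theorem su_det (A : SL) (h10 : (A : Mat) 1 0 = conj ((A : Mat) 0 1))
    (h11 : (A : Mat) 1 1 = conj ((A : Mat) 0 0)) :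
    ‖(A : Mat) 0 0‖ ^ 2 - ‖(A : Mat) 0 1‖ ^ 2 = 1 := by
  have h := A.det_coe
  rw [Matrix.det_fin_two, h10, h11, Complex.mul_conj, Complex.mul_conj,
    Complex.normSq_eq_norm_sq, Complex.normSq_eq_norm_sq] at h
  exact_mod_cast h

theorem cFCH (pbd : St_PBD) (cvr : St_CVR) (lfn : St_LFN) (cta : St_CTA) : St_FCH := by
  intro S _ ι s hinj hT hs
  obtain ⟨T, hT⟩ := hT
  refine ⟨fun γ => ⟨(hs γ).2.1, (hs γ).1⟩, ?_, ?_⟩
  · intro X
    set Y : ℝ := max X 1 with hY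
    have hY1 : 1 ≤ Y := le_max_right _ _
    have hY0 : 0 < Y := by linarith
    have hXY : X ≤ Y := le_max_left _ _
    have hr : Real.sqrt (1 - 1 / Y) < 1 := by
      rw [Real.sqrt_lt' one_pos]
      have : 0 < 1 / Y := by positivity
      linarith
    refine (Set.Finite.preimage (f := ι) hinj.injOn (lfn _ hr)).subset ?_
    intro x hx
    simp only [Set.mem_ofPred_eq] at hx
    refine ⟨zc, zc_mem pbd, ?_⟩
    obtain ⟨h10, h11, hact⟩ := hs x
    have hdet := su_det (s x) h10 h11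
    rw [hact zc]
    have hz : ((zc : DD) : ℂ) = 0 := rfl
    rw [hz, mul_zero, zero_add, mul_zero, zero_add, h11, norm_div, RCLike.norm_conj]
    apply Real.le_sqrt_of_sq_le
    rw [div_pow]
    have e : Pool.Agent.Helper35.PM.hs (s x : Mat) =
        2 * (‖(s x : Mat) 0 0‖ ^ 2 + ‖(s x : Mat) 0 1‖ ^ 2) := by
      unfold Pool.Agent.Helper35.PM.hs
      simp only [Fin.sum_univ_two, h10, h11, RCLike.norm_conj]
      ring
    rw [e] at hx
    have hq : 0 ≤ ‖(s x : Mat) 0 1‖ ^ 2 := by positivity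
    have hp : 0 < ‖(s x : Mat) 0 0‖ ^ 2 := by linarith
    have hpY : ‖(s x : Mat) 0 0‖ ^ 2 ≤ Y := by linarith
    have h1 : 1 / Y ≤ 1 / ‖(s x : Mat) 0 0‖ ^ 2 := one_div_le_one_div_of_le hp hpY
    have h2 : ‖(s x : Mat) 0 1‖ ^ 2 / ‖(s x : Mat) 0 0‖ ^ 2 =
        1 - 1 / ‖(s x : Mat) 0 0‖ ^ 2 := by
      rw [eq_sub_iff_add_eq, ← add_div, div_eq_one_iff_eq hp.ne']
      linarith
    rw [h2]
    linarith
  · have hK : IsCompact (⋃ t ∈ T, act t '' Pc) :=
      T.isCompact_biUnion fun t _ => pbd.2.2.2.1.image (cta.1 t)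
    have hne : (⋃ t ∈ T, act t '' Pc).Nonempty := by
      obtain ⟨x, t, ht, -⟩ := hT 1
      exact ⟨act t zc, Set.mem_biUnion (show t ∈ (T : Set W) from ht)
        (Set.mem_image_of_mem _ (zc_mem pbd))⟩
    have hc : Continuous fun z : DD => ‖(z : ℂ)‖ := continuous_norm.comp continuous_subtype_val
    obtain ⟨z0, -, hz0⟩ := hK.exists_isMaxOn hne hc.continuousOn
    refine ⟨‖(z0 : ℂ)‖, mem_ball_zero_iff.1 z0.2, ?_⟩
    intro z hz
    obtain ⟨w, hw⟩ := cvr ⟨z, hz⟩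
    obtain ⟨x, t, ht, h⟩ := hT w⁻¹
    refine ⟨x⁻¹, ?_⟩
    have h1 : ι x⁻¹ = t * w := by
      rw [map_inv]
      have h2 : w = (ι x * t)⁻¹ := by rw [← h, inv_inv]
      rw [h2]; group
    have h3 := (hs x⁻¹).2.2 ⟨z, hz⟩
    have h4 : Pool.Agent.Helper20.QD.mob (s x⁻¹) z = ((act (ι x⁻¹) ⟨z, hz⟩ : DD) : ℂ) := h3.symm
    rw [h4, h1]
    have h5 : act (t * w) ⟨z, hz⟩ ∈ ⋃ t ∈ T, act t '' Pc := by
      rw [map_mul, Equiv.Perm.mul_apply]
      exact Set.mem_biUnion (show t ∈ (T : Set W) from ht) (Set.mem_image_of_mem _ hw)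
    exact hz0 h5

end Pool.Agent.Helper33.QG
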