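import Pool.Agent.Helper69.QG.St4

/-! # Project QD, part C: Lipschitz on a finite closed cover of a convex set -/

open Complex Set Metric

namespace Pool.Agent.Helper33.QG

open Pool.Agent.Helper69.QG

/-- One variable version. -/
theorem lip_aux {ι : Type} [DecidableEq ι] (A : ι → Set ℝ) (hA : ∀ i, IsClosed (A i))
    (g : ℝ → ℂ) (M : ℝ)
    (hg : ∀ i, ∀ s ∈ A i, ∀ t ∈ A i, 0 ≤ s → s ≤ t → t ≤ 1 → ‖g s - g t‖ ≤ M * (t - s))
    (I : Finset ι) : ∀ a b : ℝ, 0 ≤ a → a ≤ b → b ≤ 1 → Icc a b ⊆ ⋃ i ∈ I, A i →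
      ‖g a - g b‖ ≤ M * (b - a) := by
  induction I using Finset.strongInduction with
  | H I ih =>
    intro a b ha hab hb hcov
    have h1 := hcov (left_mem_Icc.2 hab)
    simp only [mem_iUnion, exists_prop] at h1
    obtain ⟨i, hi, hai⟩ := h1
    have hcomp : IsCompact (A i ∩ Icc a b) := isCompact_Icc.inter_left (hA i)
    have hne : (A i ∩ Icc a b).Nonempty := ⟨a, hai, left_mem_Icc.2 hab⟩
    have ht := hcomp.sSup_mem hne
    have hmax : ∀ t ∈ A i ∩ Icc a b, t ≤ sSup (A i ∩ Icc a b) := fun t h =>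
      le_csSup hcomp.bddAbove h
    set t₁ := sSup (A i ∩ Icc a b)
    obtain ⟨htA, hat, htb⟩ := ht
    have e1 : ‖g a - g t₁‖ ≤ M * (t₁ - a) := hg i a hai t₁ htA ha hat (htb.trans hb)
    rcases htb.eq_or_lt with h | h
    · rwa [h] at e1
    · have hcl : IsClosed (⋃ j ∈ I.erase i, A j) :=
        Set.Finite.isClosed_biUnion (I.erase i).finite_toSet fun j _ => hA j
      have hsub : Ioc t₁ b ⊆ ⋃ j ∈ I.erase i, A j := by
        intro t htt
        have h2 := hcov ⟨hat.trans htt.1.le, htt.2⟩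
        simp only [mem_iUnion, exists_prop] at h2
        obtain ⟨j, hj, htj⟩ := h2
        have hji : j ≠ i := by
          rintro rfl
          exact absurd (hmax t ⟨htj, hat.trans htt.1.le, htt.2⟩) (not_le.2 htt.1)
        exact mem_biUnion (show j ∈ ((I.erase i : Finset ι) : Set ι) from
          Finset.mem_erase.2 ⟨hji, hj⟩) htj
      have hsub2 : Icc t₁ b ⊆ ⋃ j ∈ I.erase i, A j := by
        rw [← closure_Ioc h.ne]
        exact closure_minimal hsub hcl
      have e2 := ih (I.erase i) (Finset.erase_ssubset hi) t₁ b (ha.trans hat) h.le hb hsub2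
      calc ‖g a - g b‖ = ‖(g a - g t₁) + (g t₁ - g b)‖ := by congr 1; ring
        _ ≤ ‖g a - g t₁‖ + ‖g t₁ - g b‖ := norm_add_le _ _
        _ ≤ M * (t₁ - a) + M * (b - t₁) := add_le_add e1 e2
        _ = M * (b - a) := by ring

theorem cLPL : St_LPL := by
  intro n K C f L hL hC hK hcov hf x hx y hy
  choose K' hK'c hK' using hK
  set γ : ℝ → ℂ := fun t => x + (t : ℂ) * (y - x) with hγ
  have hγc : Continuous γ := by
    exact continuous_const.add (Complex.continuous_ofReal.mul continuous_const)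
  have hγC : ∀ t ∈ Icc (0 : ℝ) 1, γ t ∈ C := by
    intro t ht
    have h := hC hx hy (sub_nonneg.2 ht.2) ht.1 (by ring)
    have e : γ t = (1 - t) • x + t • y := by
      simp only [hγ, Complex.real_smul]; push_cast; ring
    rw [e]; exact h
  have hdist : ∀ s t : ℝ, s ≤ t → ‖γ s - γ t‖ = (t - s) * ‖x - y‖ := by
    intro s t hst
    have e : γ s - γ t = ((t - s : ℝ) : ℂ) * (x - y) := by
      simp only [hγ]; push_cast; ring
    rw [e, norm_mul, Complex.norm_real, Real.norm_of_nonneg (sub_nonneg.2 hst)]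
  have key := lip_aux (fun i => γ ⁻¹' (K' i)) (fun i => (hK'c i).preimage hγc)
    (fun t => f (γ t)) (L * ‖x - y‖) ?_ Finset.univ 0 1 le_rfl zero_le_one le_rfl ?_
  · have e0 : γ 0 = x := by simp [hγ]
    have e1 : γ 1 = y := by simp [hγ]
    simp only [e0, e1] at key
    linarith
  · intro i s hs t ht h0 hst h1
    have hsC := hγC s ⟨h0, hst.trans h1⟩
    have htC := hγC t ⟨h0.trans hst, h1⟩
    have hsK : γ s ∈ K i ∩ C := by rw [hK']; exact ⟨hs, hsC⟩
    have htK : γ t ∈ K i ∩ C := by rw [hK']; exact ⟨ht, htC⟩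
    have h := hf i _ hsK _ htK
    rw [hdist s t hst] at h
    calc ‖f (γ s) - f (γ t)‖ ≤ L * ((t - s) * ‖x - y‖) := h
      _ = L * ‖x - y‖ * (t - s) := by ring
  · intro t ht
    have htC := hγC t ht
    obtain ⟨i, hi⟩ := mem_iUnion.1 (hcov htC)
    have h : γ t ∈ K' i ∩ C := by rw [← hK']; exact ⟨hi, htC⟩
    simp only [mem_iUnion, exists_prop]
    exact ⟨i, Finset.mem_univ i, h.1⟩

end Pool.Agent.Helper33.QG
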