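import Pool.Agent.Helper69.QG.St3

/-! # Project QD, part C: characteristic subgroup of finite index -/

namespace Pool.Agent.Helper33.QG

open Pool.Agent.Helper69.QG

/-- Abstract form: a finite index subgroup of a group whose homomorphisms are determined by the
images of four elements contains a normal finite index subgroup invariant under all
automorphisms. -/
theorem exists_char {E : Type} [Group E] (K : Subgroup E) [Finite (E ⧸ K)] (g : Fin 4 → E)
    (hg : ∀ f f' : E →* Equiv.Perm (E ⧸ K), (∀ i, f (g i) = f' (g i)) → f = f') :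
    ∃ N : Subgroup E, N ≤ K ∧ N.FiniteIndex ∧ N.Normal ∧ ∀ φ : E ≃* E, ∀ n ∈ N, φ n ∈ N := by
  classical
  have hfin : Finite (E →* Equiv.Perm (E ⧸ K)) := by
    refine Finite.of_injective (fun f : E →* Equiv.Perm (E ⧸ K) => fun i => f (g i)) ?_
    intro f f' h
    exact hg f f' fun i => congrFun h i
  refine ⟨⨅ f : E →* Equiv.Perm (E ⧸ K), f.ker, ?_, ?_, ?_, ?_⟩
  · refine (iInf_le _ (MulAction.toPermHom E (E ⧸ K))).trans ?_
    rw [← Subgroup.normalCore_eq_ker]
    exact Subgroup.normalCore_le K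
  · exact Subgroup.finiteIndex_iInf fun f => Subgroup.finiteIndex_ker f
  · exact Subgroup.normal_iInf_normal fun f => MonoidHom.normal_ker f
  · intro φ n hn
    rw [Subgroup.mem_iInf] at hn ⊢
    intro f
    have h := hn (f.comp φ.toMonoidHom)
    rw [MonoidHom.mem_ker] at h ⊢
    exact h

theorem cCHS (evl : St_EVL) : St_CHS := by
  intro S _ ι hinj hev hT
  obtain ⟨T, hT⟩ := hT
  obtain ⟨hgen, -, huniq, -, -⟩ := evl
  set ι' : S →* Ev := ι.codRestrict Ev hev with hι'
  have hcoe : ∀ x, ((ι' x : Ev) : W) = ι x := fun x => rfl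
  have hfin : Finite (Ev ⧸ ι'.range) := by
    refine Finite.of_surjective (α := {t : T // (t : W) ∈ Ev})
      (fun t => ((⟨(t.1 : W), t.2⟩ : Ev)⁻¹ : Ev)) ?_
    intro q
    induction q using QuotientGroup.induction_on with
    | H w =>
      obtain ⟨x, t, ht, h⟩ := hT ((w⁻¹ : Ev) : W)
      have ht' : t = (ι x)⁻¹ * ((w⁻¹ : Ev) : W) := by rw [h]; group
      have htE : t ∈ Ev := by
        rw [ht']; exact Ev.mul_mem (Ev.inv_mem (hev x)) (w⁻¹ : Ev).2
      refine ⟨⟨⟨t, ht⟩, htE⟩, ?_⟩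
      rw [QuotientGroup.eq]
      refine ⟨x⁻¹, ?_⟩
      apply Subtype.ext
      show (ι x⁻¹) = ((((⟨t, htE⟩ : Ev)⁻¹)⁻¹ * w : Ev) : W)
      rw [inv_inv, map_inv]
      show (ι x)⁻¹ = t * (w : W)
      rw [ht']
      show (ι x)⁻¹ = (ι x)⁻¹ * (w : W)⁻¹ * (w : W)
      group
  obtain ⟨N₀, hK, hidx, hnorm, hchar⟩ := exists_char ι'.range
    (fun s => (⟨gen s * gen 0, hgen s⟩ : Ev)) (fun f f' h => huniq _ f f' fun s _ => h s)
  refine ⟨N₀.comap ι', ?_, ?_, ?_⟩
  · constructor
    rw [Subgroup.index_comap]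
    exact fun h => hidx.index_ne_zero (Subgroup.index_eq_zero_of_relIndex_eq_zero h)
  · exact hnorm.comap ι'
  · intro φ n hn h
    have h1 : φ (ι' n) ∈ N₀ := hchar φ (ι' n) hn
    obtain ⟨n', hn'⟩ := hK h1
    refine ⟨n', ?_, ?_⟩
    · show ι' n' ∈ N₀
      rw [hn']; exact h1
    · exact congrArg (fun e : Ev => (e : W)) hn'

end Pool.Agent.Helper33.QG
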